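import Pool.Agent.Lib.MP_8d8c46_lc.Mg.G002

set_option autoImplicit false

open Finset
open scoped Classical

namespace Pool.Agent.Lib.MP_8d8c46_lc.Gap

open Pool.Agent.Lib.MP_8d8c46_lc Pool.Agent.Lib.MP_8d8c46_lc.SDP Pool.Agent.Lib.MP_8d8c46_lc.EL

private def W07_equiv {R : ℕ} {X : Type} (π : Equiv.Perm (Fin R)) : (Fin R → X) ≃ (Fin R → X) where
  toFun ω := fun i => ω (π i)
  invFun ω := fun i => ω (π.symm i)
  left_inv ω := by
    funext i
    simp
  right_inv ω := by
    funext i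
    simp

private theorem W07_avg {R D b : ℕ} {hX : Fintype (Tup R D b)} (f : Tup R D b → ℝ) :
    avg (Sy f) = avg f := by
  have h1 : Sy f = fun ω => (1 / (R.factorial : ℝ)) *
      ∑ σ : Equiv.Perm (Fin R), f (fun i => ω (σ i)) := by
    funext ω
    unfold Sy
    ring
  have h2 : ∀ σ ∈ (univ : Finset (Equiv.Perm (Fin R))),
      avg (fun ω : Tup R D b => f (fun i => ω (σ i))) = avg f := fun σ _ =>
    avg_equiv (W07_equiv σ) f
  have h3 : (R.factorial : ℝ) ≠ 0 := by exact_mod_cast R.factorial_ne_zero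
  rw [h1, avg_const_mul, avg_sum, sum_congr rfl h2, sum_const, card_univ, Fintype.card_perm,
    Fintype.card_fin, nsmul_eq_mul]
  field_simp

/-- Symmetrisation: `Sy f (ω ∘ π) = Sy f ω`, bounds and average are preserved (permuting the
coordinates is a bijection; `R!` permutations), and the noise operator preserves symmetric
functions (permute `z` as well). -/
theorem W07_Sy {R D b : ℕ} [NeZero b] (f : Tup R D b → ℝ) :
    (∀ (π : Equiv.Perm (Fin R)) (ω : Tup R D b), Sy f (fun i => ω (π i)) = Sy f ω) ∧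
      avg (Sy f) = avg f ∧
      (∀ lo hi : ℝ, (∀ ω, lo ≤ f ω) → (∀ ω, f ω ≤ hi) → ∀ ω, lo ≤ Sy f ω ∧ Sy f ω ≤ hi) ∧
      ∀ (ν : ℝ), (∀ (π : Equiv.Perm (Fin R)) (ω : Tup R D b), f (fun i => ω (π i)) = f ω) →
        ∀ (π : Equiv.Perm (Fin R)) (ω : Tup R D b), nz ν f (fun i => ω (π i)) = nz ν f ω := by
  have h3 : (0 : ℝ) < R.factorial := by exact_mod_cast R.factorial_pos
  refine ⟨?_, W07_avg f, ?_, ?_⟩
  · intro π ω
    unfold Sy
    congr 1
    exact Equiv.sum_comp (Equiv.mulLeft π) (fun σ : Equiv.Perm (Fin R) => f (fun i => ω (σ i)))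
  · intro lo hi hlo hhi ω
    unfold Sy
    have hc : ∀ c : ℝ, ∑ _σ : Equiv.Perm (Fin R), c = c * R.factorial := by
      intro c
      rw [sum_const, card_univ, Fintype.card_perm, Fintype.card_fin, nsmul_eq_mul, mul_comm]
    rw [le_div_iff₀ h3, div_le_iff₀ h3, ← hc, ← hc]
    exact ⟨sum_le_sum fun σ _ => hlo _, sum_le_sum fun σ _ => hhi _⟩
  · intro ν hf π ω
    unfold nz
    rw [← (W07_equiv π).sum_comp (fun z : Fin R → Cube D => (∏ i, bw ν (z i)) *
      f (fun i => ((ω (π i)).1 + z i, (ω (π i)).2)))]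
    refine sum_congr rfl fun z _ => ?_
    have h4 : (∏ i, bw ν ((W07_equiv π) z i)) = ∏ i, bw ν (z i) :=
      Equiv.prod_comp π (fun i => bw ν (z i))
    rw [h4]
    congr 1
    exact hf π (fun i => ((ω i).1 + z i, (ω i).2))

end Pool.Agent.Lib.MP_8d8c46_lc.Gap
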