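import Pool.Agent.Lib.MP_8d8c46_lc.Mg.G002
import Pool.Agent.Lib.MP_8d8c46_lc.Mg.G007
import Pool.Agent.Lib.MP_8d8c46_lc.Mg.G006
import Pool.Agent.Lib.MP_8d8c46_lc.Mg.G008
import Pool.Agent.Lib.MP_8d8c46_lc.Mg.G004

set_option autoImplicit false

open Finset
open scoped Classical

namespace Pool.Agent.Lib.MP_8d8c46_lc.Gap

open Pool.Agent.Lib.MP_8d8c46_lc Pool.Agent.Lib.MP_8d8c46_lc.SDP Pool.Agent.Lib.MP_8d8c46_lc.EL

/-- The gap theorem for `δ = a / b`. -/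
theorem M05_main {η ε : ℝ} (hη0 : 0 < η) (hη1 : η ≤ 1 / 2) {εq : ℚ} (hεq : (εq : ℝ) = ε)
    (hε0 : 0 < ε) (hε1 : ε ≤ 1) {k : ℕ} (hk : 2 ≤ k) {a b : ℕ} (ha : 1 ≤ a) (hb : 1 ≤ b)
    (hδ : (a / b : ℝ) ≤ (η / 4) ^ (16 / ε)) (N₀ : ℕ) :
    ∃ (V : Type) (_ : Fintype V) (_ : DecidableEq V) (G : SimpleGraph V) (d n₁ : ℕ),
      N₀ ≤ Fintype.card V ∧ 1 ≤ n₁ ∧ Fintype.card V = b * n₁ ∧ 1 ≤ d ∧ Regular G d ∧
      (∀ S : Finset V, (S.card : ℝ) = (a / b : ℝ) * Fintype.card V →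
        (inside G S : ℝ) ≤ η * (d * S.card)) ∧
      ∃ X : Finset V → ℝ, SA.SheraliAdams k ((a / b : ℝ) * Fintype.card V) X ∧ BasicSDP X ∧
        SA.pseudoExpansion G d ((a / b : ℝ) * Fintype.card V) X ≤ ε := by
  haveI : NeZero b := ⟨by omega⟩
  have haR : (1 : ℝ) ≤ a := by exact_mod_cast ha
  have hbR : (1 : ℝ) ≤ b := by exact_mod_cast hb
  set δ : ℝ := (a / b : ℝ) with hδdef
  have hδ0 : 0 < δ := by positivity
  obtain ⟨hδ1, M, hM, hcM, h2⟩ := M02_M hη0 hη1 hε0 hε1 hδ0 hδ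
  have hab : 2 * a ≤ b := by
    have h1 : (a : ℝ) ≤ 1 / 2 * b := by
      rw [hδdef, div_le_iff₀ (by linarith)] at hδ1
      exact hδ1
    have h2 : (2 : ℝ) * a ≤ b := by linarith
    exact_mod_cast h2
  obtain ⟨s, m, hs, hm, hcomp⟩ := K14_complete (k := k) (a := a) (b := b) hk ha hab
    (κ := ε / 32) (by linarith) (by linarith)
  obtain ⟨ν, θ, hν0, hν1, hθ0, hθ1, hθ, hbθ, hclose⟩ := M01_nu hb (ε := ε / 8) (by linarith) s m
  have hν0R : (0 : ℝ) ≤ (ν : ℝ) := by exact_mod_cast hν0.le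
  have hν1R : (ν : ℝ) ≤ 1 / 2 := by
    have : (ν : ℝ) ≤ ((1 / 2 : ℚ) : ℝ) := by exact_mod_cast hν1
    simpa using this
  obtain ⟨R, hR, hsound⟩ := S24_sound (b := b) (δ := δ) (c := ε / 2) (ν := (ν : ℝ)) (θ := θ)
    hδ0 (by linarith) (by linarith) (by linarith) hM hcM hν0R hν1R hθ0 hθ1 hθ hbθ
  have hsound' := hsound R le_rfl
  obtain ⟨γ, D₁, hγ, hcomp'⟩ := hcomp R hR
  obtain ⟨D, hDD⟩ : ∃ D : ℕ, D = D₁ + 1 := ⟨_, rfl⟩
  have hD1 : 1 ≤ D := by omega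
  obtain ⟨D₀, N, hD₀, hN, hrow, hNT⟩ := W03_rational (R := R) (D := D) (b := b)
    (c := εq / 2) (ν := ν) (by
      have : (0 : ℝ) ≤ ((εq / 2 : ℚ) : ℝ) := by push_cast; rw [hεq]; linarith
      exact_mod_cast this) (by
      have : ((εq / 2 : ℚ) : ℝ) ≤ ((1 : ℚ) : ℝ) := by push_cast; rw [hεq]; linarith
      exact_mod_cast this) hν0.le (by
      have : (ν : ℚ) ≤ 1 / 2 := hν1
      linarith)
  have hcast : (((εq / 2 : ℚ)) : ℝ) = ε / 2 := by push_cast; rw [hεq]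
  rw [hcast] at hNT
  obtain ⟨D', d, G, hDN, hd, hreg, hin, hF⟩ := R06_graph (W := Tup R D b) N hN hD₀ hrow
    (ξ := η / 2) (by linarith) N₀
  obtain ⟨hbad, X, hX1, hX2, hX3, hX4⟩ := hcomp' D (by omega) (Cube D')
  have hcardT : Fintype.card (Tup R D b) = (2 ^ D * b) ^ R := by
    rw [Fintype.card_fun, Fintype.card_prod, Fintype.card_fun, ZMod.card, ZMod.card,
      Fintype.card_fin, Fintype.card_fin]
  have hcardC : Fintype.card (Cube D') = 2 ^ D' := by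
    rw [Fintype.card_fun, ZMod.card, Fintype.card_fin]
  refine ⟨Tup R D b × Cube D', inferInstance, inferInstance, G, d,
    2 ^ D * (2 ^ D * b) ^ (R - 1) * 2 ^ D', ?_, ?_, ?_, hd, ?_, ?_, X, ?_, ?_, ?_⟩
  · rw [Fintype.card_prod, hcardC]
    have h1 : D' < 2 ^ D' := Nat.lt_two_pow_self
    have h2 : 1 ≤ Fintype.card (Tup R D b) := Fintype.card_pos
    nlinarith
  · have h1 : 1 ≤ 2 ^ D * b := Nat.one_le_iff_ne_zero.2 (by positivity)
    exact Nat.one_le_iff_ne_zero.2 (by positivity)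
  · rw [Fintype.card_prod, hcardC, hcardT]
    obtain ⟨R', rfl⟩ : ∃ R', R = R' + 1 := ⟨R - 1, by omega⟩
    rw [pow_succ, Nat.add_sub_cancel]
    ring
  · exact hreg
  · intro S hS
    exact M03_no (T := TT (ε / 2) (ν : ℝ)) hD₀ hNT hη0 hδ0 hM h2 (hsound' D) hin S hS
  · exact hX1
  · exact hX2
  · have hL := L05_mean (R := R) (D := D) (b := b) hR hD1 γ s m ha (by omega : a ≤ b)
      (c := ε / 2) (ν := (ν : ℝ)) (by linarith) (by linarith) hν0R (by linarith)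
    have hΛ := L04_close (D := D) hD1 hν0R (by linarith : (ν : ℝ) ≤ 1) s m
    set Λ : ℝ := ∑ z, ∑ z', bw (ν : ℝ) z * bw (ν : ℝ) z' *
      lensP m ((cor (0 : Cube D) (z + z') ^ 2) ^ s) with hΛdef
    have h := M04_yes (W := Tup R D b) (o := oT γ s m a) (κ := ε / 32)
      (L := (1 - ε / 2) * Λ - 2 * (ε / 32)) hD₀ hrow hδ0 hd hF ?_ hX3 hX4
    · refine h.trans ?_
      have h3 : 1 - ε / 8 ≤ Λ := by linarith
      nlinarith
    · have h4 : (∑ w : Tup R D b, ∑ w' : Tup R D b, (N w w' : ℝ) * oT γ s m a w w') / D₀ =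
          ∑ w : Tup R D b, ∑ w' : Tup R D b, TT (ε / 2) (ν : ℝ) w w' * oT γ s m a w w' := by
        have hD₀R : (D₀ : ℝ) ≠ 0 := by
          have : (1 : ℝ) ≤ D₀ := by exact_mod_cast hD₀
          linarith
        rw [div_eq_iff hD₀R, sum_mul]
        refine sum_congr rfl (fun w _ => ?_)
        rw [sum_mul]
        refine sum_congr rfl (fun w' _ => ?_)
        rw [hNT]
        ring
      rw [h4]
      refine le_trans ?_ hL
      have h5 : (0 : ℝ) ≤ Fintype.card (Tup R D b) := Nat.cast_nonneg _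
      nlinarith

end Pool.Agent.Lib.MP_8d8c46_lc.Gap
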